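import Pool.Agent.H126R2.NC.L4

set_option autoImplicit false
set_option linter.unusedSectionVars false

/-!
Circuit covers from flows over the field with two elements; eight classes of edges from pairs of
flows over a three-dimensional space: the even subsets of a set with eight elements modulo
complements are a six-dimensional space with a hyperbolic quadratic form (half the size, modulo 2).
-/

namespace Pool.Agent.Run7.h335.EC8

open Finset
open Pool.Agent.Helper879.ECD (F2 IsFlow f2_add_self f2_cases cn)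
open Pool.Agent.H126R2.CDC (MGraph isFl_iff IsFl exists_flow8)
open Pool.Agent.H126R2.NC (InIntCone cover_minus countP_sum)

variable {W E : Type} [Fintype W] [DecidableEq W] [Fintype E] [DecidableEq E]

lemma flow_add {a b : E → W} {x y : E → F2} (hx : IsFlow a b x) (hy : IsFlow a b y) :
    IsFlow a b (fun e => x e + y e) := by
  intro c
  have h1 := hx c
  have h2 := hy c
  have h3 : ∀ e ∈ (univ : Finset E), (x e + y e) * (c (a e) + c (b e)) =
      x e * (c (a e) + c (b e)) + y e * (c (a e) + c (b e)) := fun e _ => by ring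
  rw [Finset.sum_congr rfl h3, Finset.sum_add_distrib, h1, h2, add_zero]

lemma flow_smul {a b : E → W} {x : E → F2} (t : F2) (hx : IsFlow a b x) :
    IsFlow a b (fun e => t * x e) := by
  intro c
  have h1 := hx c
  have h3 : ∀ e ∈ (univ : Finset E), (t * x e) * (c (a e) + c (b e)) =
      t * (x e * (c (a e) + c (b e))) := fun e _ => by ring
  rw [Finset.sum_congr rfl h3, ← Finset.mul_sum, h1, mul_zero]

/-- every nonempty proper vertex set is left by an edge of `T` -/
def Con (a b : E → W) (T : Finset E) : Prop :=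
  ∀ B : Finset W, B.Nonempty → B ≠ univ → ∃ e ∈ T, ¬ (a e ∈ B ↔ b e ∈ B)

lemma join (a b : E → W) (T : Finset E) (hT : Con a b T) (u v : W) :
    ∃ ψ : E → F2, (∀ e, e ∉ T → ψ e = 0) ∧
      ∀ c : W → F2, ∑ e, ψ e * (c (a e) + c (b e)) = c u + c v := by
  classical
  by_contra hcon
  let B : Finset W := univ.filter (fun v => ∃ ψ : E → F2, (∀ e, e ∉ T → ψ e = 0) ∧
    ∀ c : W → F2, ∑ e, ψ e * (c (a e) + c (b e)) = c u + c v)
  have hB : ∀ v, v ∈ B ↔ ∃ ψ : E → F2, (∀ e, e ∉ T → ψ e = 0) ∧
    ∀ c : W → F2, ∑ e, ψ e * (c (a e) + c (b e)) = c u + c v := fun v => by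
      simp only [B, Finset.mem_filter, Finset.mem_univ, true_and]
  have hu : u ∈ B := (hB u).2 ⟨fun _ => 0, fun _ _ => rfl, fun c => by
    simp only [zero_mul, Finset.sum_const_zero]
    exact (f2_add_self _).symm⟩
  have hv : v ∉ B := fun h => hcon ((hB v).1 h)
  obtain ⟨e, he, hx⟩ := hT B ⟨u, hu⟩ (fun h => hv (h ▸ mem_univ v))
  have step : ∀ w w' : W, ((a e = w ∧ b e = w') ∨ (a e = w' ∧ b e = w)) → w ∈ B → w' ∈ B := by
    intro w w' hw hwB
    obtain ⟨ψ, h1, h2⟩ := (hB w).1 hwB
    refine (hB w').2 ⟨fun f => ψ f + (if f = e then 1 else 0), fun f hf => ?_, fun c => ?_⟩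
    · show ψ f + (if f = e then 1 else 0) = 0
      have hne : f ≠ e := fun h => hf (by rw [h]; exact he)
      rw [h1 f hf, if_neg hne, add_zero]
    · have h3 : ∀ f ∈ (univ : Finset E), (ψ f + (if f = e then 1 else 0)) * (c (a f) + c (b f)) =
          ψ f * (c (a f) + c (b f)) + (if f = e then (c (a f) + c (b f)) else 0) := by
        intro f _
        split_ifs <;> ring
      rw [Finset.sum_congr rfl h3, Finset.sum_add_distrib, h2 c, Finset.sum_ite_eq' univ e]
      simp only [Finset.mem_univ, if_true]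
      have h4 : c w + c w = 0 := f2_add_self _
      rcases hw with ⟨h5, h6⟩ | ⟨h5, h6⟩
      · rw [h5, h6]
        linear_combination h4
      · rw [h5, h6]
        linear_combination h4
  by_cases h1 : a e ∈ B
  · have h2 := step (a e) (b e) (Or.inl ⟨rfl, rfl⟩) h1
    exact hx ⟨fun _ => h2, fun _ => h1⟩
  · by_cases h2 : b e ∈ B
    · exact h1 (step (b e) (a e) (Or.inr ⟨rfl, rfl⟩) h2)
    · exact hx ⟨fun h => absurd h h1, fun h => absurd h h2⟩

/-- prescribed values outside a connecting set -/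
lemma ext (a b : E → W) (T : Finset E) (hT : Con a b T) (x : E → F2) :
    ∃ ψ : E → F2, IsFlow a b ψ ∧ ∀ e, e ∉ T → ψ e = x e := by
  classical
  choose J h1 h2 using fun e => join a b T hT (a e) (b e)
  refine ⟨fun f => (if f ∈ T then 0 else x f) + ∑ e, (if e ∈ T then 0 else x e) * J e f, ?_, ?_⟩
  · intro c
    have h3 : ∀ f ∈ (univ : Finset E),
        ((if f ∈ T then 0 else x f) + ∑ e, (if e ∈ T then 0 else x e) * J e f) *
          (c (a f) + c (b f)) =
        (if f ∈ T then 0 else x f) * (c (a f) + c (b f)) +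
          ∑ e, (if e ∈ T then 0 else x e) * (J e f * (c (a f) + c (b f))) := by
      intro f _
      rw [add_mul, Finset.sum_mul]
      congr 1
      exact Finset.sum_congr rfl (fun e _ => by ring)
    rw [Finset.sum_congr rfl h3, Finset.sum_add_distrib, Finset.sum_comm]
    have h4 : ∀ e ∈ (univ : Finset E),
        ∑ f, (if e ∈ T then 0 else x e) * (J e f * (c (a f) + c (b f))) =
        (if e ∈ T then 0 else x e) * (c (a e) + c (b e)) := by
      intro e _
      rw [← Finset.mul_sum, h2 e c]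
    rw [Finset.sum_congr rfl h4]
    exact f2_add_self _
  · intro f hf
    simp only [if_neg hf]
    have h3 : ∀ e ∈ (univ : Finset E), (if e ∈ T then 0 else x e) * J e f = 0 := by
      intro e _
      rw [h1 e f hf, mul_zero]
    rw [Finset.sum_congr rfl h3, Finset.sum_const_zero, add_zero]

variable {V : Type} [Fintype V] [DecidableEq V]

lemma cover_classes (G : MGraph V E) (v : E × Bool → V)
    (hv : ∀ e, G.ends e = s(v (e, false), v (e, true))) {ι : Type} [Fintype ι] [DecidableEq ι]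
    (ψ : ι → E → F2) (hψ : ∀ i, IsFlow (fun e => v (e, false)) (fun e => v (e, true)) (ψ i)) :
    InIntCone G (fun e => (univ.filter (fun i => ψ i e = 1)).card) := by
  classical
  have hev : ∀ i, G.IsEven (univ.filter (fun e => ψ i e = 1)) := by
    intro i
    rw [G.isEven_iff v hv, isFl_iff]
    have h1 : (fun e => if e ∈ univ.filter (fun e => ψ i e = 1) then (1 : F2) else 0) = ψ i := by
      ext e
      rcases f2_cases (ψ i e) with h | h
      · simp [h]
      · simp [h]
    rw [h1]
    exact hψ i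
  choose F hF1 hF2 using fun i => G.decompose _ _ rfl (hev i)
  refine ⟨∑ i, F i, ?_, ?_⟩
  · intro C hC
    rw [Multiset.mem_sum] at hC
    obtain ⟨c, _, hc⟩ := hC
    exact hF1 c C hc
  · intro e
    show _ = (univ.filter (fun i => ψ i e = 1)).card
    rw [countP_sum, Finset.card_filter]
    refine Finset.sum_congr rfl fun i _ => ?_
    rw [hF2 i e]
    simp

lemma cone_add (G : MGraph V E) {p q : E → ℕ} (hp : InIntCone G p) (hq : InIntCone G q) :
    InIntCone G (fun e => p e + q e) := by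
  obtain ⟨F, h1, h2⟩ := hp
  obtain ⟨F', h1', h2'⟩ := hq
  refine ⟨F + F', ?_, ?_⟩
  · intro C hC
    rcases Multiset.mem_add.1 hC with h | h
    · exact h1 C h
    · exact h1' C h
  · intro e
    rw [Multiset.countP_add, h2, h2']

lemma cone_sum (G : MGraph V E) {ι : Type} [DecidableEq ι] (s : Finset ι) (p : ι → E → ℕ)
    (hp : ∀ i ∈ s, InIntCone G (p i)) : InIntCone G (fun e => ∑ i ∈ s, p i e) := by
  induction s using Finset.induction_on with
  | empty => exact ⟨0, by simp, by simp⟩
  | insert i s hi ih =>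
    have h1 := cone_add G (hp i (mem_insert_self _ _)) (ih fun j hj => hp j (mem_insert_of_mem hj))
    convert h1 using 2 with e
    rw [Finset.sum_insert hi]

/-- the six vectors of a hyperbolic basis of the even subsets of `Fin 8` -/
def ba (i : Fin 3) (x : Fin 8) : Bool :=
  match i with
  | 0 => decide (x = 0 ∨ x = 1 ∨ x = 2 ∨ x = 3)
  | 1 => decide (x = 0 ∨ x = 3 ∨ x = 4 ∨ x = 5)
  | 2 => decide (x = 2 ∨ x = 3 ∨ x = 4 ∨ x = 6)

def bb (i : Fin 3) (x : Fin 8) : Bool :=
  match i with
  | 0 => decide (x = 0 ∨ x = 1 ∨ x = 2 ∨ x = 4)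
  | 1 => decide (x = 1 ∨ x = 3 ∨ x = 4 ∨ x = 5)
  | 2 => decide (x = 0 ∨ x = 1 ∨ x = 5 ∨ x = 6)

/-- the indicator of `x` in the even set with coordinates `α`, `β`, `c` -/
def th (α0 α1 α2 β0 β1 β2 c : F2) (x : Fin 8) : F2 :=
  (if ba 0 x then α0 else 0) + (if ba 1 x then α1 else 0) + (if ba 2 x then α2 else 0) +
  (if bb 0 x then β0 else 0) + (if bb 1 x then β1 else 0) + (if bb 2 x then β2 else 0) + c

/-- the number of the elements of the even set with coordinates `α`, `β`, `c` -/
def sz (α0 α1 α2 β0 β1 β2 c : F2) : ℕ :=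
  (univ.filter (fun x => th α0 α1 α2 β0 β1 β2 c x = 1)).card

set_option maxRecDepth 100000 in
lemma sz_odd : ∀ α0 α1 α2 β0 β1 β2 : F2, α0 * β0 + α1 * β1 + α2 * β2 = 1 →
    (sz α0 α1 α2 β0 β1 β2 0 = 2 ∧ sz α0 α1 α2 β0 β1 β2 1 = 6) ∨
      (sz α0 α1 α2 β0 β1 β2 0 = 6 ∧ sz α0 α1 α2 β0 β1 β2 1 = 2) := by
  decide

set_option maxRecDepth 100000 in
lemma sz_even : ∀ α0 α1 α2 β0 β1 β2 c : F2, α0 * β0 + α1 * β1 + α2 * β2 = 0 →
    ¬ (α0 = 0 ∧ α1 = 0 ∧ α2 = 0 ∧ β0 = 0 ∧ β1 = 0 ∧ β2 = 0) →
      sz α0 α1 α2 β0 β1 β2 c = 4 := by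
  decide

lemma sz_zero : sz 0 0 0 0 0 0 0 = 0 ∧ sz 0 0 0 0 0 0 1 = 8 := by
  decide

end Pool.Agent.Run7.h335.EC8
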