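import Pool.Agent.Run7.h335.EC8.Base

set_option autoImplicit false
set_option linter.unusedSectionVars false

/-!
Blocks: circuit covers with eight classes of edges.
-/

namespace Pool.Agent.Run7.h335.EC8

open Finset
open Pool.Agent.Helper879.ECD (F2 IsFlow f2_add_self f2_cases cn)
open Pool.Agent.H126R2.CDC (MGraph isFl_iff IsFl exists_flow8)
open Pool.Agent.H126R2.NC (InIntCone cover_minus countP_sum)

variable {V E : Type} [Fintype V] [DecidableEq V] [Fintype E] [DecidableEq E]

lemma flow_zero (a b : E → V) : IsFlow a b (fun _ => 0) := by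
  intro c
  simp

lemma flow_ite {a b : E → V} {x : E → F2} (hx : IsFlow a b x) (t : Bool) :
    IsFlow a b (fun e => if t then x e else 0) := by
  cases t
  · simpa using flow_zero a b
  · simpa using hx

/-- Circuit covers with eight classes. The edges with `⟨α, β⟩ = 1` have weight two or six, the edges
with `α = β = 0` have weight zero or eight, the other edges have weight four and connect the
graph. -/
theorem block8 (G : MGraph V E) (v : E × Bool → V)
    (hv : ∀ e, G.ends e = s(v (e, false), v (e, true))) (α β : Fin 3 → E → F2)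
    (hα : ∀ i, IsFlow (fun e => v (e, false)) (fun e => v (e, true)) (α i))
    (hβ : ∀ i, IsFlow (fun e => v (e, false)) (fun e => v (e, true)) (β i))
    (T : Finset E) (hT : Con (fun e => v (e, false)) (fun e => v (e, true)) T) (p : E → ℕ)
    (h1 : ∀ e, α 0 e * β 0 e + α 1 e * β 1 e + α 2 e * β 2 e = 1 →
      e ∉ T ∧ (p e = 2 ∨ p e = 6))
    (h0 : ∀ e, (α 0 e = 0 ∧ α 1 e = 0 ∧ α 2 e = 0 ∧ β 0 e = 0 ∧ β 1 e = 0 ∧ β 2 e = 0) →
      e ∉ T ∧ (p e = 0 ∨ p e = 8))
    (h4 : ∀ e, α 0 e * β 0 e + α 1 e * β 1 e + α 2 e * β 2 e = 0 →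
      ¬ (α 0 e = 0 ∧ α 1 e = 0 ∧ α 2 e = 0 ∧ β 0 e = 0 ∧ β 1 e = 0 ∧ β 2 e = 0) → p e = 4) :
    InIntCone G p := by
  classical
  obtain ⟨c, hc1, hc2⟩ := ext _ _ T hT (fun e =>
    if sz (α 0 e) (α 1 e) (α 2 e) (β 0 e) (β 1 e) (β 2 e) 0 = p e then 0 else 1)
  have hψ : ∀ x : Fin 8, IsFlow (fun e => v (e, false)) (fun e => v (e, true))
      (fun e => th (α 0 e) (α 1 e) (α 2 e) (β 0 e) (β 1 e) (β 2 e) (c e) x) := by
    intro x
    unfold th
    exact flow_add (flow_add (flow_add (flow_add (flow_add (flow_add (flow_ite (hα 0) _)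
      (flow_ite (hα 1) _)) (flow_ite (hα 2) _)) (flow_ite (hβ 0) _)) (flow_ite (hβ 1) _))
      (flow_ite (hβ 2) _)) hc1
  have key := cover_classes G v hv _ hψ
  have hp : (fun e => (univ.filter (fun x : Fin 8 =>
      th (α 0 e) (α 1 e) (α 2 e) (β 0 e) (β 1 e) (β 2 e) (c e) x = 1)).card) = p := by
    funext e
    show sz (α 0 e) (α 1 e) (α 2 e) (β 0 e) (β 1 e) (β 2 e) (c e) = p e
    rcases f2_cases (α 0 e * β 0 e + α 1 e * β 1 e + α 2 e * β 2 e) with hq | hq
    · by_cases hz : α 0 e = 0 ∧ α 1 e = 0 ∧ α 2 e = 0 ∧ β 0 e = 0 ∧ β 1 e = 0 ∧ β 2 e = 0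
      · obtain ⟨k1, k2⟩ := h0 e hz
        obtain ⟨z1, z2, z3, z4, z5, z6⟩ := hz
        have hce := hc2 e k1
        simp only [z1, z2, z3, z4, z5, z6, sz_zero.1] at hce ⊢
        rcases k2 with h | h
        · rw [h] at hce ⊢
          rw [if_pos rfl] at hce
          rw [hce]; exact sz_zero.1
        · rw [h] at hce ⊢
          rw [if_neg (by norm_num)] at hce
          rw [hce]; exact sz_zero.2
      · rw [h4 e hq hz]
        exact sz_even _ _ _ _ _ _ _ hq hz
    · obtain ⟨k1, k2⟩ := h1 e hq
      have hce := hc2 e k1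
      rcases sz_odd _ _ _ _ _ _ hq with ⟨s0, s1⟩ | ⟨s0, s1⟩
      · simp only [s0] at hce
        rcases k2 with h | h
        · rw [h, if_pos rfl] at hce
          rw [hce, h, s0]
        · rw [h, if_neg (by norm_num)] at hce
          rw [hce, h, s1]
      · simp only [s0] at hce
        rcases k2 with h | h
        · rw [h, if_neg (by norm_num)] at hce
          rw [hce, h, s1]
        · rw [h, if_pos rfl] at hce
          rw [hce, h, s0]
  rwa [hp] at key

/-- every nonempty proper vertex set is left by at least two edges of `H` -/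
def Two (a b : E → V) (H : Finset E) : Prop :=
  ∀ B : Finset V, B.Nonempty → B ≠ univ → 2 ≤ cn a b H B

lemma Two.con {a b : E → V} {H : Finset E} (h : Two a b H) : Con a b H := by
  intro B h1 h2
  have h3 := h B h1 h2
  unfold cn at h3
  obtain ⟨e, he⟩ := Finset.card_pos.1 (by omega : 0 < (H.filter (fun e =>
    ¬ (a e ∈ B ↔ b e ∈ B))).card)
  rw [Finset.mem_filter] at he
  exact ⟨e, he.1, he.2⟩

lemma Two.ne_one {a b : E → V} {H : Finset E} (h : Two a b H) (K : Finset E) (hK : H ⊆ K)
    (B : Finset V) : cn a b K B ≠ 1 := by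
  by_cases h1 : B.Nonempty
  · by_cases h2 : B = univ
    · subst h2
      unfold cn
      simp
    · have h3 := h B h1 h2
      have h4 : cn a b H B ≤ cn a b K B :=
        Finset.card_le_card (Finset.filter_subset_filter _ hK)
      omega
  · rw [Finset.not_nonempty_iff_eq_empty] at h1
    subst h1
    unfold cn
    simp

/-- circuit double covers of subgraphs containing `H` -/
theorem block2 (G : MGraph V E) (v : E × Bool → V)
    (hv : ∀ e, G.ends e = s(v (e, false), v (e, true))) (H : Finset E)
    (hH : Two (fun e => v (e, false)) (fun e => v (e, true)) H) (r : E → ℕ)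
    (h1 : ∀ e ∈ H, r e = 2) (h2 : ∀ e, r e = 0 ∨ r e = 2) : InIntCone G r := by
  classical
  obtain ⟨F, hF1, hF2⟩ := cover_minus G v hv (univ.filter fun e => r e = 0) (fun B => by
    apply hH.ne_one
    intro e he
    rw [Finset.mem_sdiff, Finset.mem_filter]
    refine ⟨Finset.mem_univ _, fun h => ?_⟩
    have := h1 e he
    omega)
  refine ⟨F, hF1, fun e => ?_⟩
  rw [hF2 e]
  by_cases h : r e = 0
  · rw [if_pos (by simp [h]), h]
  · rw [if_neg (by simp [h])]
    have := h2 e
    omega

/-- weights divisible by four -/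
theorem block4 (G : MGraph V E) (v : E × Bool → V)
    (hv : ∀ e, G.ends e = s(v (e, false), v (e, true))) (H : Finset E)
    (hH : Two (fun e => v (e, false)) (fun e => v (e, true)) H) (p : E → ℕ)
    (h1 : ∀ e ∈ H, p e = 4) (h2 : ∀ e, p e = 0 ∨ p e = 4 ∨ p e = 8) : InIntCone G p := by
  classical
  let v' : E × Bool → V := fun h => if p h.1 = 4 then v h else v (h.1, false)
  obtain ⟨ψ, hψ1, hψ2⟩ := exists_flow8 _ (fun e => v' (e, false)) (fun e => v' (e, true)) rfl (by
    intro B
    have h3 : cn (fun e => v' (e, false)) (fun e => v' (e, true)) univ B =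
        cn (fun e => v (e, false)) (fun e => v (e, true)) (univ.filter fun e => p e = 4) B := by
      unfold cn
      congr 1
      ext e
      simp only [Finset.mem_filter, Finset.mem_univ, true_and, v']
      by_cases h : p e = 4
      · simp [h]
      · simp [h]
    rw [h3]
    exact hH.ne_one _ (fun e he => by simp [h1 e he]) B)
  refine block8 G v hv (fun i e => if p e = 4 then ψ i e else 0) (fun _ _ => 0) ?_
    (fun _ => flow_zero _ _) H hH.con p ?_ ?_ ?_
  · intro i c
    refine Eq.trans ?_ (hψ2 i c)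
    refine Finset.sum_congr rfl fun e _ => ?_
    by_cases h : p e = 4
    · simp only [v', h, if_true]
    · simp only [v', h, if_false, zero_mul]
      rw [f2_add_self, mul_zero]
  · intro e he
    simp at he
  · intro e he
    have h3 : p e ≠ 4 := by
      intro h
      simp only [h, if_true] at he
      rcases hψ1 e with h4 | h4 | h4
      · exact h4 he.1
      · exact h4 he.2.1
      · exact h4 he.2.2.1
    refine ⟨fun h => h3 (h1 e h), ?_⟩
    have := h2 e
    omega
  · intro e _ he
    by_contra h3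
    apply he
    simp [h3]

end Pool.Agent.Run7.h335.EC8
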