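import Pool.Agent.Run7.h335.EC8.Block

set_option autoImplicit false
set_option linter.unusedSectionVars false

/-!
Circuit covers of even weightings which are constant on a spanning subgraph.
-/

namespace Pool.Agent.Run7.h335.EC8

open Finset
open Pool.Agent.Helper879.ECD (F2 IsFlow f2_add_self f2_cases cn)
open Pool.Agent.H126R2.CDC (MGraph isFl_iff IsFl exists_flow8)
open Pool.Agent.H126R2.NC (InIntCone cover_minus countP_sum)

variable {V E : Type} [Fintype V] [DecidableEq V] [Fintype E] [DecidableEq E]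

lemma Con.mono {a b : E → V} {T T' : Finset E} (h : Con a b T) (hT : ∀ e ∈ T, e ∈ T') :
    Con a b T' := by
  intro B h1 h2
  obtain ⟨e, he, hx⟩ := h B h1 h2
  exact ⟨e, hT e he, hx⟩

/-- Two flows `C1`, `C2` such that the edges outside `C1`, the edges outside `C2` and the union
connect the graph; weights two, four, six on the edges of the flows and on connecting sets outside
of them, weight four on a connecting set. -/
theorem block3n (G : MGraph V E) (v : E × Bool → V)
    (hv : ∀ e, G.ends e = s(v (e, false), v (e, true))) (C1 C2 : E → F2)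
    (c1 : IsFlow (fun e => v (e, false)) (fun e => v (e, true)) C1)
    (c2 : IsFlow (fun e => v (e, false)) (fun e => v (e, true)) C2) (M1 M2 M K : Finset E)
    (hM1 : Con (fun e => v (e, false)) (fun e => v (e, true)) M1)
    (hM2 : Con (fun e => v (e, false)) (fun e => v (e, true)) M2)
    (hM : Con (fun e => v (e, false)) (fun e => v (e, true)) M)
    (hK : Con (fun e => v (e, false)) (fun e => v (e, true)) K) (p : E → ℕ)
    (hpK : ∀ e ∈ K, p e = 4)
    (hC1 : ∀ e, C1 e = 1 → p e = 2 ∨ p e = 4 ∨ p e = 6)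
    (hC2 : ∀ e, C2 e = 1 → p e = 2 ∨ p e = 4 ∨ p e = 6)
    (m1 : ∀ e ∈ M1, C1 e = 0 ∧ (p e = 2 ∨ p e = 4 ∨ p e = 6))
    (m2 : ∀ e ∈ M2, C2 e = 0 ∧ (p e = 2 ∨ p e = 4 ∨ p e = 6))
    (m : ∀ e ∈ M, C1 e = 1 ∨ C2 e = 1)
    (hp : ∀ e, p e = 0 ∨ p e = 2 ∨ p e = 4 ∨ p e = 6 ∨ p e = 8) : InIntCone G p := by
  classical
  have one0 : (1 : F2) ≠ 0 := one_ne_zero
  obtain ⟨C3, c3, c3'⟩ := ext _ _ M hM (fun e => if p e = 2 ∨ p e = 4 ∨ p e = 6 then 1 else 0)
  obtain ⟨D3, d3, d3'⟩ := ext _ _ M hM (fun e => if p e = 2 ∨ p e = 6 then 1 else 0)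
  obtain ⟨D2, d2, d2'⟩ := ext _ _ M2 hM2 (fun e =>
    if C2 e = 1 ∧ C1 e = 0 then (if p e = 2 ∨ p e = 6 then 1 else 0) + C3 e * D3 e else 0)
  obtain ⟨D1, d1, d1'⟩ := ext _ _ M1 hM1 (fun e =>
    if C1 e = 1 then (if p e = 2 ∨ p e = 6 then 1 else 0) + C3 e * D3 e + C2 e * D2 e else 0)
  have q : ∀ e, C1 e * D1 e + C2 e * D2 e + C3 e * D3 e = if p e = 2 ∨ p e = 6 then 1 else 0 := by
    intro e
    rcases f2_cases (C1 e) with k1 | k1
    · rcases f2_cases (C2 e) with k2 | k2
      · have h1 : e ∉ M := fun h => by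
          rcases m e h with h2 | h2
          · rw [k1] at h2; exact one0 h2.symm
          · rw [k2] at h2; exact one0 h2.symm
        rw [k1, k2, zero_mul, zero_mul, zero_add, zero_add, c3' e h1, d3' e h1]
        by_cases h : p e = 2 ∨ p e = 6
        · rw [if_pos h, if_pos (by omega), one_mul]
        · rw [if_neg h, mul_zero]
      · have h1 : e ∉ M2 := fun h => by
          rw [(m2 e h).1] at k2; exact one0 k2.symm
        rw [k1, k2, zero_mul, one_mul, zero_add, d2' e h1, if_pos ⟨k2, k1⟩, add_assoc,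
          f2_add_self, add_zero]
    · have h1 : e ∉ M1 := fun h => by
        rw [(m1 e h).1] at k1; exact one0 k1.symm
      rw [k1, one_mul, d1' e h1, if_pos k1]
      have h2 := f2_add_self (C3 e * D3 e)
      have h3 := f2_add_self (C2 e * D2 e)
      linear_combination h2 + h3
  have nz : ∀ e, (p e = 2 ∨ p e = 4 ∨ p e = 6) → ¬ (C1 e = 0 ∧ C2 e = 0 ∧ C3 e = 0) := by
    rintro e he ⟨k1, k2, k3⟩
    have h1 : e ∉ M := fun h => by
      rcases m e h with h2 | h2
      · rw [k1] at h2; exact one0 h2.symm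
      · rw [k2] at h2; exact one0 h2.symm
    rw [c3' e h1, if_pos he] at k3
    exact one0 k3
  have hF : ∀ e, ¬ (p e = 2 ∨ p e = 4 ∨ p e = 6) →
      C1 e = 0 ∧ C2 e = 0 ∧ C3 e = 0 ∧ D1 e = 0 ∧ D2 e = 0 ∧ D3 e = 0 := by
    intro e he
    have k1 : C1 e = 0 := (f2_cases (C1 e)).resolve_right fun h => he (hC1 e h)
    have k2 : C2 e = 0 := (f2_cases (C2 e)).resolve_right fun h => he (hC2 e h)
    have h1 : e ∉ M := fun h => by
      rcases m e h with h2 | h2
      · rw [k1] at h2; exact one0 h2.symm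
      · rw [k2] at h2; exact one0 h2.symm
    have h2 : e ∉ M1 := fun h => he (m1 e h).2
    have h3 : e ∉ M2 := fun h => he (m2 e h).2
    refine ⟨k1, k2, ?_, ?_, ?_, ?_⟩
    · rw [c3' e h1, if_neg he]
    · rw [d1' e h2, if_neg (by rw [k1]; exact fun h => one0 h.symm)]
    · rw [d2' e h3, if_neg (by rw [k2]; exact fun h => one0 h.1.symm)]
    · rw [d3' e h1, if_neg (by omega)]
  refine block8 G v hv ![C1, C2, C3] ![D1, D2, D3] ?_ ?_ K hK p ?_ ?_ ?_
  · intro i
    fin_cases i
    · exact c1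
    · exact c2
    · exact c3
  · intro i
    fin_cases i
    · exact d1
    · exact d2
    · exact d3
  · intro e he
    have h1 : C1 e * D1 e + C2 e * D2 e + C3 e * D3 e = 1 := he
    rw [q e] at h1
    by_cases h : p e = 2 ∨ p e = 6
    · refine ⟨fun hK' => ?_, h⟩
      have := hpK e hK'
      omega
    · rw [if_neg h] at h1
      exact absurd h1.symm one0
  · intro e he
    have h1 : C1 e = 0 ∧ C2 e = 0 ∧ C3 e = 0 ∧ D1 e = 0 ∧ D2 e = 0 ∧ D3 e = 0 := he
    have h2 : ¬ (p e = 2 ∨ p e = 4 ∨ p e = 6) := fun h => nz e h ⟨h1.1, h1.2.1, h1.2.2.1⟩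
    refine ⟨fun hK' => h2 (by have := hpK e hK'; omega), ?_⟩
    have := hp e
    omega
  · intro e he hz
    have h1 : C1 e * D1 e + C2 e * D2 e + C3 e * D3 e = 0 := he
    have h2 : ¬ (C1 e = 0 ∧ C2 e = 0 ∧ C3 e = 0 ∧ D1 e = 0 ∧ D2 e = 0 ∧ D3 e = 0) := hz
    rw [q e] at h1
    have h3 : ¬ (p e = 2 ∨ p e = 6) := fun h => by
      rw [if_pos h] at h1
      exact one0 h1
    by_contra h4
    exact h2 (hF e (by omega))

lemma sum_min2 (m : ℕ) : ∀ k : ℕ, ∑ j ∈ range k, min 2 (m - 2 * j) = min (2 * k) m := by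
  intro k
  induction k with
  | zero => simp
  | succ k ih => rw [Finset.sum_range_succ, ih]; omega

lemma sum_min4 (m : ℕ) : ∀ k : ℕ, ∑ j ∈ range k, min 4 (m - 4 * j) = min (4 * k) m := by
  intro k
  induction k with
  | zero => simp
  | succ k ih => rw [Finset.sum_range_succ, ih]; omega

lemma sum_min1 (m : ℕ) : ∀ k : ℕ, ∑ j ∈ range k, min 1 (m - j) = min k m := by
  intro k
  induction k with
  | zero => simp
  | succ k ih => rw [Finset.sum_range_succ, ih]; omega

/-- weights divisible by four, at most twice the constant weight -/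
theorem span4 (G : MGraph V E) (v : E × Bool → V)
    (hv : ∀ e, G.ends e = s(v (e, false), v (e, true))) (H : Finset E)
    (hH : Two (fun e => v (e, false)) (fun e => v (e, true)) H) (k : ℕ) (p : E → ℕ)
    (h1 : ∀ e ∈ H, p e = 4 * k) (h2 : ∀ e, 4 ∣ p e) (h3 : ∀ e, p e ≤ 8 * k) :
    InIntCone G p := by
  classical
  have h4 := cone_sum G (range k) (fun j e => if e ∈ H then 4 else 4 * min 2 (p e / 4 - 2 * j))
    (fun j _ => block4 G v hv H hH _ (fun e he => by rw [if_pos he]) (fun e => by
      by_cases he : e ∈ H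
      · rw [if_pos he]; omega
      · rw [if_neg he]; omega))
  convert h4 using 2 with e
  by_cases he : e ∈ H
  · simp only [if_pos he, Finset.sum_const, Finset.card_range, smul_eq_mul]
    rw [h1 e he]; ring
  · simp only [if_neg he]
    rw [← Finset.mul_sum, sum_min2]
    have := h2 e
    have := h3 e
    omega

/-- constant weight `4 k + 2` on a spanning 2-edge-connected subgraph -/
theorem span2 (G : MGraph V E) (v : E × Bool → V)
    (hv : ∀ e, G.ends e = s(v (e, false), v (e, true))) (H : Finset E)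
    (hH : Two (fun e => v (e, false)) (fun e => v (e, true)) H) (k : ℕ) (p : E → ℕ)
    (h1 : ∀ e ∈ H, p e = 4 * k + 2) (h2 : ∀ e, Even (p e)) (h3 : ∀ e, p e ≤ 8 * k + 2) :
    InIntCone G p := by
  classical
  have h4 := block2 G v hv H hH (fun e => if e ∈ H then 2 else p e % 4)
    (fun e he => by rw [if_pos he]) (fun e => by
      by_cases he : e ∈ H
      · rw [if_pos he]; omega
      · rw [if_neg he]
        obtain ⟨t, ht⟩ := h2 e
        omega)
  have h5 := span4 G v hv H hH k (fun e => if e ∈ H then 4 * k else 4 * (p e / 4))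
    (fun e he => by rw [if_pos he]) (fun e => by
      by_cases he : e ∈ H
      · rw [if_pos he]; exact ⟨k, rfl⟩
      · rw [if_neg he]; exact ⟨_, rfl⟩) (fun e => by
      have := h3 e
      by_cases he : e ∈ H
      · rw [if_pos he]; omega
      · rw [if_neg he]; omega)
  convert cone_add G h5 h4 using 2 with e
  by_cases he : e ∈ H
  · rw [if_pos he, if_pos he, h1 e he]
  · rw [if_neg he, if_neg he]; omega

/-- constant weight `4 k + 4` on a spanning 2-edge-connected subgraph -/
theorem span0 (G : MGraph V E) (v : E × Bool → V)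
    (hv : ∀ e, G.ends e = s(v (e, false), v (e, true))) (H : Finset E)
    (hH : Two (fun e => v (e, false)) (fun e => v (e, true)) H) (k : ℕ) (p : E → ℕ)
    (h1 : ∀ e ∈ H, p e = 4 * k + 4) (h2 : ∀ e, Even (p e))
    (h3 : ∀ e, p e ≤ 8 * k + 2 ∨ (4 ∣ p e ∧ p e ≤ 8 * k + 4)) :
    InIntCone G p := by
  classical
  have h4 := block2 G v hv H hH (fun e => if e ∈ H then 2 else if p e = 0 then 0 else 2)
    (fun e he => by rw [if_pos he]) (fun e => by
      split_ifs <;> omega)
  have h5 := span2 G v hv H hH k (fun e => if e ∈ H then 4 * k + 2 else p e - 2)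
    (fun e he => by rw [if_pos he]) (fun e => by
      by_cases he : e ∈ H
      · rw [if_pos he]; exact ⟨2 * k + 1, by ring⟩
      · rw [if_neg he]
        obtain ⟨t, ht⟩ := h2 e
        exact ⟨t - 1, by omega⟩) (fun e => by
      have := h3 e
      by_cases he : e ∈ H
      · rw [if_pos he]; omega
      · rw [if_neg he]; omega)
  convert cone_add G h5 h4 using 2 with e
  have := h2 e
  by_cases he : e ∈ H
  · rw [if_pos he, if_pos he, h1 e he]
  · rw [if_neg he, if_neg he]
    obtain ⟨t, ht⟩ := h2 e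
    split_ifs <;> omega

/-- two flows `C1`, `C2` with connecting union and connecting complements in `L`, constant weight
`4 k` on a connecting set -/
theorem flows0 (G : MGraph V E) (v : E × Bool → V)
    (hv : ∀ e, G.ends e = s(v (e, false), v (e, true))) (C1 C2 : E → F2)
    (c1 : IsFlow (fun e => v (e, false)) (fun e => v (e, true)) C1)
    (c2 : IsFlow (fun e => v (e, false)) (fun e => v (e, true)) C2) (M1 M2 M K : Finset E)
    (hM1 : Con (fun e => v (e, false)) (fun e => v (e, true)) M1)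
    (hM2 : Con (fun e => v (e, false)) (fun e => v (e, true)) M2)
    (hM : Con (fun e => v (e, false)) (fun e => v (e, true)) M)
    (hK : Con (fun e => v (e, false)) (fun e => v (e, true)) K) (k : ℕ) (p : E → ℕ)
    (hpK : ∀ e ∈ K, p e = 4 * k)
    (hC1 : ∀ e, C1 e = 1 → 2 * k ≤ p e ∧ p e ≤ 6 * k)
    (hC2 : ∀ e, C2 e = 1 → 2 * k ≤ p e ∧ p e ≤ 6 * k)
    (m1 : ∀ e ∈ M1, C1 e = 0 ∧ 2 * k ≤ p e ∧ p e ≤ 6 * k)
    (m2 : ∀ e ∈ M2, C2 e = 0 ∧ 2 * k ≤ p e ∧ p e ≤ 6 * k)
    (m : ∀ e ∈ M, C1 e = 1 ∨ C2 e = 1)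
    (hev : ∀ e, Even (p e)) (hp : ∀ e, p e ≤ 8 * k) : InIntCone G p := by
  classical
  have hj : ∀ (j : ℕ) (e : E), 2 * k ≤ p e ∧ p e ≤ 6 * k →
      (if e ∈ K then 4 else if 2 * k ≤ p e ∧ p e ≤ 6 * k then
        2 + 2 * min 2 (p e / 2 - k - 2 * j) else 2 * min 4 (p e / 2 - 4 * j)) = 2 ∨
      (if e ∈ K then 4 else if 2 * k ≤ p e ∧ p e ≤ 6 * k then
        2 + 2 * min 2 (p e / 2 - k - 2 * j) else 2 * min 4 (p e / 2 - 4 * j)) = 4 ∨
      (if e ∈ K then 4 else if 2 * k ≤ p e ∧ p e ≤ 6 * k then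
        2 + 2 * min 2 (p e / 2 - k - 2 * j) else 2 * min 4 (p e / 2 - 4 * j)) = 6 := by
    intro j e he
    rw [if_pos he]
    by_cases hK' : e ∈ K
    · rw [if_pos hK']; omega
    · rw [if_neg hK']; omega
  have h4 := cone_sum G (range k) (fun j e => if e ∈ K then 4 else
      if 2 * k ≤ p e ∧ p e ≤ 6 * k then 2 + 2 * min 2 (p e / 2 - k - 2 * j) else
      2 * min 4 (p e / 2 - 4 * j))
    (fun j _ => block3n G v hv C1 C2 c1 c2 M1 M2 M K hM1 hM2 hM hK _
      (fun e he => by rw [if_pos he]) (fun e he => hj j e (hC1 e he))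
      (fun e he => hj j e (hC2 e he)) (fun e he => ⟨(m1 e he).1, hj j e (m1 e he).2⟩)
      (fun e he => ⟨(m2 e he).1, hj j e (m2 e he).2⟩) m (fun e => by
        by_cases hK' : e ∈ K
        · rw [if_pos hK']; omega
        · rw [if_neg hK']
          by_cases he : 2 * k ≤ p e ∧ p e ≤ 6 * k
          · rw [if_pos he]; omega
          · rw [if_neg he]; omega))
  convert h4 using 2 with e
  obtain ⟨t, ht⟩ := hev e
  by_cases hK' : e ∈ K
  · simp only [if_pos hK', Finset.sum_const, Finset.card_range, smul_eq_mul]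
    rw [hpK e hK']; ring
  · simp only [if_neg hK']
    by_cases he : 2 * k ≤ p e ∧ p e ≤ 6 * k
    · simp only [if_pos he, Finset.sum_add_distrib, Finset.sum_const, Finset.card_range,
        smul_eq_mul]
      rw [← Finset.mul_sum, sum_min2]
      omega
    · simp only [if_neg he]
      rw [← Finset.mul_sum, sum_min4]
      have := hp e
      omega

/-- a cut which is crossed by a flow is crossed twice -/
lemma crossed_twice {a b : E → V} {x : E → F2} (hx : IsFlow a b x) (B : Finset V) (e : E)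
    (he : x e = 1) (hB : ¬ (a e ∈ B ↔ b e ∈ B)) : ∃ f, f ≠ e ∧ x f = 1 ∧ ¬ (a f ∈ B ↔ b f ∈ B) := by
  classical
  by_contra hcon
  push Not at hcon
  have h1 := hx (fun w => if w ∈ B then 1 else 0)
  have one0 : (1 : F2) ≠ 0 := one_ne_zero
  have h2 : ∀ f ∈ (univ : Finset E), x f * ((if a f ∈ B then (1 : F2) else 0) +
      (if b f ∈ B then 1 else 0)) = if f = e then 1 else 0 := by
    intro f _
    by_cases hfe : f = e
    · subst hfe
      rw [if_pos rfl, he, one_mul]
      by_cases h3 : a f ∈ B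
      · have h4 : b f ∉ B := fun h4 => hB ⟨fun _ => h4, fun _ => h3⟩
        rw [if_pos h3, if_neg h4, add_zero]
      · have h4 : b f ∈ B := by
          by_contra h4
          exact hB ⟨fun h => absurd h h3, fun h => absurd h h4⟩
        rw [if_neg h3, if_pos h4, zero_add]
    · rw [if_neg hfe]
      rcases f2_cases (x f) with h3 | h3
      · rw [h3, zero_mul]
      · have h4 := hcon f hfe h3
        by_cases h5 : a f ∈ B
        · rw [if_pos h5, if_pos (h4.1 h5), f2_add_self, mul_zero]
        · rw [if_neg h5, if_neg (fun h => h5 (h4.2 h)), add_zero, mul_zero]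
  rw [Finset.sum_congr rfl h2, Finset.sum_ite_eq' univ e] at h1
  simp only [Finset.mem_univ, if_true] at h1
  exact one0 h1

lemma two_of_pair {a b : E → V} (S : Finset E)
    (X : Finset V) (e f : E) (hef : f ≠ e) (he : e ∈ S) (hf : f ∈ S)
    (hx : ¬ (a e ∈ X ↔ b e ∈ X)) (hy : ¬ (a f ∈ X ↔ b f ∈ X)) : 2 ≤ cn a b S X := by
  unfold cn
  rw [show (2 : ℕ) = ({e, f} : Finset E).card from (Finset.card_pair hef.symm).symm]
  apply Finset.card_le_card
  intro g hg
  rw [Finset.mem_insert, Finset.mem_singleton] at hg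
  rw [Finset.mem_filter]
  rcases hg with rfl | rfl
  · exact ⟨he, hx⟩
  · exact ⟨hf, hy⟩

/-- two flows `C1`, `C2` with connecting union and connecting complements in `L`, constant weight
`4 k + 2` on a connecting set -/
theorem flows2 (G : MGraph V E) (v : E × Bool → V)
    (hv : ∀ e, G.ends e = s(v (e, false), v (e, true))) (C1 C2 : E → F2)
    (c1 : IsFlow (fun e => v (e, false)) (fun e => v (e, true)) C1)
    (c2 : IsFlow (fun e => v (e, false)) (fun e => v (e, true)) C2) (M1 M2 M K : Finset E)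
    (hM1 : Con (fun e => v (e, false)) (fun e => v (e, true)) M1)
    (hM2 : Con (fun e => v (e, false)) (fun e => v (e, true)) M2)
    (hM : Con (fun e => v (e, false)) (fun e => v (e, true)) M)
    (hK : Con (fun e => v (e, false)) (fun e => v (e, true)) K) (k : ℕ) (p : E → ℕ)
    (hpK : ∀ e ∈ K, p e = 4 * k + 2)
    (hC1 : ∀ e, C1 e = 1 → 2 * k + 2 ≤ p e ∧ p e ≤ 6 * k + 2)
    (hC2 : ∀ e, C2 e = 1 → 2 * k + 2 ≤ p e ∧ p e ≤ 6 * k + 2)
    (m1 : ∀ e ∈ M1, C1 e = 0 ∧ 2 * k + 2 ≤ p e ∧ p e ≤ 6 * k + 2)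
    (m2 : ∀ e ∈ M2, C2 e = 0 ∧ 2 * k + 2 ≤ p e ∧ p e ≤ 6 * k + 2)
    (m : ∀ e ∈ M, C1 e = 1 ∨ C2 e = 1)
    (hev : ∀ e, Even (p e)) (hp : ∀ e, p e ≤ 8 * k + 2) : InIntCone G p := by
  classical
  let H : Finset E := univ.filter fun e => 2 * k + 2 ≤ p e ∧ p e ≤ 6 * k + 2
  have hH : ∀ e, e ∈ H ↔ 2 * k + 2 ≤ p e ∧ p e ≤ 6 * k + 2 := by
    intro e
    simp only [H, Finset.mem_filter, Finset.mem_univ, true_and]
  have hTwo : Two (fun e => v (e, false)) (fun e => v (e, true)) H := by
    intro B hB hB'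
    obtain ⟨e, he, hx⟩ := hM B hB hB'
    rcases m e he with h | h
    · obtain ⟨f, h1, h2, h3⟩ := crossed_twice c1 B e h hx
      exact two_of_pair H B e f h1 ((hH e).2 (hC1 e h)) ((hH f).2 (hC1 f h2))
        hx h3
    · obtain ⟨f, h1, h2, h3⟩ := crossed_twice c2 B e h hx
      exact two_of_pair H B e f h1 ((hH e).2 (hC2 e h)) ((hH f).2 (hC2 f h2))
        hx h3
  have h4 := block2 G v hv H hTwo (fun e => if e ∈ H then 2 else p e % 4)
    (fun e he => by rw [if_pos he]) (fun e => by
      by_cases he : e ∈ H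
      · rw [if_pos he]; omega
      · rw [if_neg he]
        obtain ⟨t, ht⟩ := hev e
        omega)
  have h6 : ∀ e, 2 * k + 2 ≤ p e ∧ p e ≤ 6 * k + 2 →
      2 * k ≤ (if e ∈ H then p e - 2 else 4 * (p e / 4)) ∧
        (if e ∈ H then p e - 2 else 4 * (p e / 4)) ≤ 6 * k := by
    intro e he
    rw [if_pos ((hH e).2 he)]
    omega
  have h5 := flows0 G v hv C1 C2 c1 c2 M1 M2 M K hM1 hM2 hM hK k
    (fun e => if e ∈ H then p e - 2 else 4 * (p e / 4))
    (fun e he => by
      have h7 := hpK e he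
      rw [if_pos ((hH e).2 (by omega)), h7]; omega)
    (fun e he => h6 e (hC1 e he)) (fun e he => h6 e (hC2 e he))
    (fun e he => ⟨(m1 e he).1, h6 e (m1 e he).2⟩) (fun e he => ⟨(m2 e he).1, h6 e (m2 e he).2⟩) m
    (fun e => by
      obtain ⟨t, ht⟩ := hev e
      by_cases he : e ∈ H
      · rw [if_pos he]; exact ⟨t - 1, by omega⟩
      · rw [if_neg he]; exact ⟨2 * (p e / 4), by ring⟩)
    (fun e => by
      have := hp e
      by_cases he : e ∈ H
      · rw [if_pos he]; omega
      · rw [if_neg he]; omega)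
  convert cone_add G h5 h4 using 2 with e
  by_cases he : e ∈ H
  · rw [if_pos he, if_pos he]
    have := (hH e).1 he
    omega
  · rw [if_neg he, if_neg he]; omega

/-- flows from three disjoint connecting sets in `L` -/
theorem flows_of_trees (a b : E → V) (L T1 T2 T3 : Finset E)
    (h12 : Disjoint T1 T2) (h13 : Disjoint T1 T3) (h23 : Disjoint T2 T3)
    (hT1 : Con a b T1) (hT2 : Con a b T2) (hT3 : Con a b T3) (s1 : T1 ⊆ L) (s2 : T2 ⊆ L)
    (s3 : T3 ⊆ L) :
    ∃ C1 C2 : E → F2, IsFlow a b C1 ∧ IsFlow a b C2 ∧ (∀ e, C1 e = 1 → e ∈ L) ∧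
      (∀ e, C2 e = 1 → e ∈ L) ∧ Con a b (L.filter fun e => C1 e = 0) ∧
      Con a b (L.filter fun e => C2 e = 0) ∧
      Con a b (univ.filter fun e => C1 e = 1 ∨ C2 e = 1) := by
  classical
  rw [Finset.disjoint_left] at h12 h13 h23
  have one0 : (1 : F2) ≠ 0 := one_ne_zero
  obtain ⟨C1, c1, c1'⟩ := ext _ _ T2 hT2 (fun e => if e ∈ L ∧ e ∉ T1 then 1 else 0)
  obtain ⟨C2, c2, c2'⟩ := ext _ _ T3 hT3 (fun e => if e ∈ L ∧ e ∉ T2 then 1 else 0)
  refine ⟨C1, C2, c1, c2, ?_, ?_, ?_, ?_, ?_⟩
  · intro e he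
    by_contra h
    rw [c1' e (fun h' => h (s2 h')), if_neg (fun h' => h h'.1)] at he
    exact one0 he.symm
  · intro e he
    by_contra h
    rw [c2' e (fun h' => h (s3 h')), if_neg (fun h' => h h'.1)] at he
    exact one0 he.symm
  · refine hT1.mono fun e he => ?_
    rw [Finset.mem_filter]
    exact ⟨s1 he, by rw [c1' e (h12 he), if_neg (fun h => h.2 he)]⟩
  · refine hT2.mono fun e he => ?_
    rw [Finset.mem_filter]
    exact ⟨s2 he, by rw [c2' e (h23 he), if_neg (fun h => h.2 he)]⟩
  · refine hT3.mono fun e he => ?_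
    rw [Finset.mem_filter]
    refine ⟨Finset.mem_univ _, Or.inl ?_⟩
    rw [c1' e (fun h => h23 h he), if_pos ⟨s3 he, fun h => h13 h he⟩]

/-- constant weight on a spanning closed trail -/
theorem trail (G : MGraph V E) (v : E × Bool → V)
    (hv : ∀ e, G.ends e = s(v (e, false), v (e, true))) (C : Finset E)
    (hC : Con (fun e => v (e, false)) (fun e => v (e, true)) C) (hCe : G.IsEven C) (c : ℕ)
    (p : E → ℕ) (h1 : ∀ e ∈ C, p e = c) (h2 : ∀ e, e ∉ C → Even (p e))
    (h3 : ∀ e, p e ≤ 2 * c) : InIntCone G p := by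
  classical
  have hfl : IsFlow (fun e => v (e, false)) (fun e => v (e, true))
      (fun e => if e ∈ C then (1 : F2) else 0) := by
    have := (G.isEven_iff v hv C).1 hCe
    rwa [isFl_iff] at this
  have one0 : (1 : F2) ≠ 0 := one_ne_zero
  have h4 := cone_sum G (range c) (fun j e => if e ∈ C then 1 else 2 * min 1 (p e / 2 - j))
    (fun j _ => by
      obtain ⟨ψ, hψ, hψ'⟩ := ext _ _ C hC (fun e => if j < p e / 2 then 1 else 0)
      have h5 := cover_classes G v hv (ι := Bool)
        (fun i e => ψ e + (if i then (if e ∈ C then 1 else 0) else 0)) (fun i => by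
          cases i
          · have := flow_add hψ (flow_zero (fun e => v (e, false)) (fun e => v (e, true)))
            simpa using this
          · simpa using flow_add hψ hfl)
      convert h5 using 2 with e
      by_cases he : e ∈ C
      · rw [if_pos he]
        rcases f2_cases (ψ e) with h | h
        · have : (univ.filter (fun i : Bool => ψ e + (if i then (if e ∈ C then (1 : F2) else 0)
              else 0) = 1)) = {true} := by
            ext i
            cases i <;> simp [h, he]
          rw [this]; rfl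
        · have : (univ.filter (fun i : Bool => ψ e + (if i then (if e ∈ C then (1 : F2) else 0)
              else 0) = 1)) = {false} := by
            ext i
            cases i
            · simp [h]
            · simp only [h, he, if_true, Finset.mem_filter, Finset.mem_univ, true_and,
                Finset.mem_singleton, Bool.true_eq_false, iff_false]
              rw [f2_add_self]
              exact fun h => one0 h.symm
          rw [this]; rfl
      · rw [if_neg he]
        have h6 := hψ' e he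
        by_cases h7 : j < p e / 2
        · rw [if_pos h7] at h6
          have : (univ.filter (fun i : Bool => ψ e + (if i then (if e ∈ C then (1 : F2) else 0)
              else 0) = 1)) = univ := by
            ext i
            simp [h6, he]
          rw [this]
          simp only [Finset.card_univ, Fintype.card_bool]
          omega
        · rw [if_neg h7] at h6
          have : (univ.filter (fun i : Bool => ψ e + (if i then (if e ∈ C then (1 : F2) else 0)
              else 0) = 1)) = ∅ := by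
            ext i
            simp [h6, he]
          rw [this]
          simp only [Finset.card_empty]
          omega)
  convert h4 using 2 with e
  by_cases he : e ∈ C
  · simp only [if_pos he, Finset.sum_const, Finset.card_range, smul_eq_mul]
    rw [h1 e he]; ring
  · simp only [if_neg he]
    rw [← Finset.mul_sum, sum_min1]
    obtain ⟨t, ht⟩ := h2 e he
    have := h3 e
    omega

end Pool.Agent.Run7.h335.EC8
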